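import Mathlib

set_option autoImplicit false

open MeasureTheory Filter Topology Set
open scoped InnerProductSpace ComplexConjugate CompactlySupported

namespace Pool.Agent.LeadW.PPS

variable {X : Type} [NormedAddCommGroup X] [InnerProductSpace ℂ X] [CompleteSpace X]

/-- the quadratic form of a function of the operator -/
noncomputable def Q (T : X →L[ℂ] X) (v : X) (f : ℝ → ℝ) : ℝ := (⟪v, cfc f T v⟫_ℂ).re

lemma Q_add (T : X →L[ℂ] X) (v : X) (f g : ℝ → ℝ) (hf : Continuous f) (hg : Continuous g) :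
    Q T v (fun x => f x + g x) = Q T v f + Q T v g := by
  unfold Q
  rw [cfc_add (a := T) f g hf.continuousOn hg.continuousOn]
  simp

lemma Q_smul (T : X →L[ℂ] X) (v : X) (c : ℝ) (f : ℝ → ℝ) (hf : Continuous f) :
    Q T v (fun x => c * f x) = c * Q T v f := by
  unfold Q
  rw [cfc_const_mul c f T hf.continuousOn]
  rw [show ((c • cfc f T : X →L[ℂ] X) v) = (c : ℂ) • cfc f T v by simp]
  rw [inner_smul_right]
  simp

lemma Q_nonneg (T : X →L[ℂ] X) (v : X) (f : ℝ → ℝ) (h0 : ∀ x ∈ spectrum ℝ T, 0 ≤ f x) :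
    0 ≤ Q T v f := by
  have h : (0 : X →L[ℂ] X) ≤ cfc f T := cfc_nonneg h0
  have h2 := (ContinuousLinearMap.nonneg_iff_isPositive _).1 h
  exact h2.re_inner_nonneg_right v

lemma Q_congr (T : X →L[ℂ] X) (v : X) (f g : ℝ → ℝ) (h0 : ∀ x ∈ spectrum ℝ T, f x = g x) :
    Q T v f = Q T v g := by
  unfold Q
  rw [cfc_congr (a := T) (f := f) (g := g) h0]

/-- the positive functional -/
noncomputable def Lam (T : X →L[ℂ] X) (v : X) : C_c(ℝ, ℝ) →ₚ[ℝ] ℝ :=
  PositiveLinearMap.mk₀
    { toFun f := Q T v f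
      map_add' f g := Q_add T v f g f.continuous g.continuous
      map_smul' c f := Q_smul T v c f f.continuous }
    fun f hf => Q_nonneg T v f fun x _ => hf x

lemma Lam_apply (T : X →L[ℂ] X) (v : X) (f : C_c(ℝ, ℝ)) : Lam T v f = Q T v f := rfl

/-- the spectral measure -/
noncomputable def mu (T : X →L[ℂ] X) (v : X) : Measure ℝ := RealRMK.rieszMeasure (Lam T v)

/-- radius -/
noncomputable def rad (T : X →L[ℂ] X) : ℝ := ‖T‖ + 1

lemma rad_pos (T : X →L[ℂ] X) : 0 < rad T := by unfold rad; positivity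

lemma spec_le [Nontrivial X] (T : X →L[ℂ] X) (x : ℝ) (hx : x ∈ spectrum ℝ T) : |x| ≤ ‖T‖ := by
  have := spectrum.norm_le_norm_of_mem hx
  simpa using this

/-- trapezoid: one on `[-r, r]`, zero outside `[-r-1, r+1]` -/
noncomputable def trap (r x : ℝ) : ℝ := max 0 (min 1 (r + 1 - |x|))

lemma trap_cont (r : ℝ) : Continuous (trap r) := by unfold trap; fun_prop

lemma trap_nonneg (r x : ℝ) : 0 ≤ trap r x := le_max_left _ _

lemma trap_le_one (r x : ℝ) : trap r x ≤ 1 := by
  unfold trap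
  exact max_le zero_le_one (min_le_left _ _)

lemma trap_eq_one {r x : ℝ} (h : |x| ≤ r) : trap r x = 1 := by
  unfold trap
  rw [min_eq_left (by linarith), max_eq_right zero_le_one]

lemma trap_eq_zero {r x : ℝ} (h : r + 1 ≤ |x|) : trap r x = 0 := by
  unfold trap
  exact max_eq_left ((min_le_right _ _).trans (by linarith))

lemma cs_mul_trap (f : ℝ → ℝ) (r : ℝ) : HasCompactSupport (fun x => f x * trap r x) := by
  apply HasCompactSupport.intro (isCompact_Icc (a := -(r + 1)) (b := r + 1))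
  intro x hx
  have : r + 1 ≤ |x| := by
    by_contra h
    push Not at h
    exact hx (abs_le.1 h.le)
  rw [trap_eq_zero this, mul_zero]

/-- compactly supported cut off of a continuous function -/
noncomputable def cutf (f : ℝ → ℝ) (hf : Continuous f) (r : ℝ) : C_c(ℝ, ℝ) where
  toFun x := f x * trap r x
  continuous_toFun := hf.mul (trap_cont r)
  hasCompactSupport' := cs_mul_trap f r

instance (T : X →L[ℂ] X) (v : X) : IsFiniteMeasureOnCompacts (mu T v) := by
  unfold mu
  infer_instance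

lemma integral_cut (T : X →L[ℂ] X) (v : X) (f : ℝ → ℝ) (hf : Continuous f) (r : ℝ) :
    ∫ x, f x * trap r x ∂(mu T v) = Q T v (fun x => f x * trap r x) :=
  RealRMK.integral_rieszMeasure (Lam T v) (cutf f hf r)

variable [Nontrivial X]

lemma mu_out (T : X →L[ℂ] X) (v : X) : mu T v {x | rad T ≤ |x|} = 0 := by
  have hn : ∀ n : ℕ, mu T v {x | rad T ≤ |x| ∧ |x| ≤ n} = 0 := by
    intro n
    have hc : Continuous fun x : ℝ => max 0 (|x| - ‖T‖) := by fun_prop
    have hK : IsCompact {x : ℝ | rad T ≤ |x| ∧ |x| ≤ n} := by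
      apply IsCompact.of_isClosed_subset (isCompact_Icc (a := -(n : ℝ)) (b := n))
      · exact (isClosed_le continuous_const continuous_abs).inter
          (isClosed_le continuous_abs continuous_const)
      · intro x hx
        exact abs_le.1 hx.2
    have hc2 : Continuous fun x : ℝ => min 1 (max 0 (|x| - ‖T‖)) := by fun_prop
    have h1 := RealRMK.rieszMeasure_le_of_eq_one (Lam T v) (f := cutf _ hc2 n)
      (fun x => mul_nonneg (le_min zero_le_one (le_max_left _ _)) (trap_nonneg _ _)) hK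
      (fun x hx => by
        show min 1 (max 0 (|x| - ‖T‖)) * trap n x = 1
        rw [trap_eq_one hx.2, mul_one]
        have : 1 ≤ |x| - ‖T‖ := by have := hx.1; unfold rad at this; linarith
        rw [max_eq_right (by linarith), min_eq_left this])
    have h2 : Lam T v (cutf _ hc2 n) = 0 := by
      rw [Lam_apply]
      have : Q T v (fun x => min 1 (max 0 (|x| - ‖T‖)) * trap n x) = Q T v (fun _ => 0) := by
        apply Q_congr
        intro x hx
        have := spec_le T x hx
        rw [max_eq_left (by linarith)]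
        simp
      show Q T v (fun x => min 1 (max 0 (|x| - ‖T‖)) * trap n x) = 0
      rw [this]
      unfold Q
      rw [cfc_const_zero]
      simp
    rw [h2, ENNReal.ofReal_zero] at h1
    exact le_antisymm h1 bot_le
  have : {x : ℝ | rad T ≤ |x|} ⊆ ⋃ n : ℕ, {x | rad T ≤ |x| ∧ |x| ≤ n} := by
    intro x hx
    obtain ⟨n, hn⟩ := exists_nat_ge |x|
    exact mem_iUnion.2 ⟨n, hx, hn⟩
  refine measure_mono_null this (measure_iUnion_null hn)

lemma ae_in (T : X →L[ℂ] X) (v : X) : ∀ᵐ x ∂(mu T v), |x| < rad T := by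
  rw [ae_iff]
  refine measure_mono_null ?_ (mu_out T v)
  intro x hx
  simpa using hx

lemma mu_finite (T : X →L[ℂ] X) (v : X) : IsFiniteMeasure (mu T v) := by
  constructor
  have h : (univ : Set ℝ) ⊆ Icc (-(rad T)) (rad T) ∪ {x | rad T ≤ |x|} := by
    intro x _
    by_cases h : rad T ≤ |x|
    · exact Or.inr h
    · left
      push Not at h
      exact abs_le.1 h.le
  calc mu T v univ ≤ mu T v (Icc (-(rad T)) (rad T)) + mu T v {x | rad T ≤ |x|} :=
        (measure_mono h).trans (measure_union_le _ _)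
    _ < ⊤ := by
        rw [mu_out, add_zero]
        exact isCompact_Icc.measure_lt_top

attribute [local instance] mu_finite

lemma integrable_cont (T : X →L[ℂ] X) (v : X) (f : ℝ → ℝ) (hf : Continuous f) :
    Integrable f (mu T v) := by
  obtain ⟨C, hC⟩ := (isCompact_Icc (a := -(rad T)) (b := rad T)).exists_bound_of_continuousOn
    hf.continuousOn
  refine Integrable.of_bound hf.aestronglyMeasurable C ?_
  filter_upwards [ae_in T v] with x hx
  exact hC x (abs_le.1 hx.le)

lemma integral_mu (T : X →L[ℂ] X) (v : X) (f : ℝ → ℝ) (hf : Continuous f) :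
    ∫ x, f x ∂(mu T v) = Q T v f := by
  have h1 : ∫ x, f x ∂(mu T v) = ∫ x, f x * trap (rad T) x ∂(mu T v) := by
    apply integral_congr_ae
    filter_upwards [ae_in T v] with x hx
    rw [trap_eq_one hx.le, mul_one]
  rw [h1, integral_cut T v f hf]
  apply Q_congr
  intro x hx
  have := spec_le T x hx
  rw [trap_eq_one (by unfold rad; linarith), mul_one]

lemma norm_sq (T : X →L[ℂ] X) (v : X) (f : ℝ → ℝ) (hf : Continuous f) :
    ‖cfc f T v‖ ^ 2 = ∫ x, f x ^ 2 ∂(mu T v) := by
  rw [integral_mu T v (fun x => f x ^ 2) (hf.pow 2)]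
  unfold Q
  have e1 : cfc (fun x => f x ^ 2) T = cfc f T * cfc f T := by
    rw [← cfc_mul f f T hf.continuousOn hf.continuousOn]
    congr 1
    funext x
    ring
  rw [e1]
  have hs : IsSelfAdjoint (cfc f T) := cfc_predicate f T
  have h2 := (ContinuousLinearMap.isSelfAdjoint_iff_isSymmetric.1 hs) v (cfc f T v)
  simp only [ContinuousLinearMap.coe_coe] at h2
  rw [mul_apply_eq_comp, ← h2, inner_self_eq_norm_sq_to_K]
  norm_cast


lemma cfc_sub_apply (T : X →L[ℂ] X) (v : X) (f g : ℝ → ℝ) (hf : Continuous f) (hg : Continuous g) :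
    cfc (fun x => f x - g x) T v = cfc f T v - cfc g T v := by
  rw [cfc_sub f g T hf.continuousOn hg.continuousOn]
  rfl

lemma integral_sq_tendsto (T : X →L[ℂ] X) (v : X) (f : ℕ → ℝ → ℝ) (g : ℝ → ℝ) (C : ℝ)
    (hc : ∀ n, Continuous (f n)) (hb : ∀ n x, |f n x| ≤ C)
    (hlim : ∀ x, Tendsto (fun n => f n x) atTop (𝓝 (g x))) (a : ℝ → ℝ) (ha : Measurable a)
    (hab : ∀ x, |a x| ≤ C) :
    Tendsto (fun n => ∫ x, (f n x - a x) ^ 2 ∂(mu T v)) atTop (𝓝 (∫ x, (g x - a x) ^ 2 ∂(mu T v))) := by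
  apply tendsto_integral_of_dominated_convergence (fun _ => (2 * C) ^ 2)
  · intro n
    exact (((hc n).measurable.sub ha).pow_const 2).aestronglyMeasurable
  · exact integrable_const _
  · intro n
    refine Eventually.of_forall fun x => ?_
    rw [Real.norm_eq_abs, abs_pow]
    have h1 : |f n x - a x| ≤ 2 * C := by
      calc |f n x - a x| ≤ |f n x| + |a x| := abs_sub _ _
        _ ≤ 2 * C := by linarith [hb n x, hab x]
    gcongr
  · refine Eventually.of_forall fun x => ?_
    exact ((hlim x).sub_const _).pow 2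

lemma norm_limit (T : X →L[ℂ] X) (v : X) (f : ℕ → ℝ → ℝ) (g : ℝ → ℝ) (C : ℝ)
    (hc : ∀ n, Continuous (f n)) (hb : ∀ n x, |f n x| ≤ C)
    (hlim : ∀ x, Tendsto (fun n => f n x) atTop (𝓝 (g x))) :
    Tendsto (fun n => ‖cfc (f n) T v‖ ^ 2) atTop (𝓝 (∫ x, g x ^ 2 ∂(mu T v))) := by
  have hC : 0 ≤ C := (abs_nonneg _).trans (hb 0 0)
  have := integral_sq_tendsto T v f g C hc hb hlim (fun _ => 0) measurable_const (by simpa using hC)
  simp only [sub_zero] at this
  refine this.congr fun n => ?_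
  rw [norm_sq T v (f n) (hc n)]

lemma exists_limit (T : X →L[ℂ] X) (v : X) (f : ℕ → ℝ → ℝ) (g : ℝ → ℝ) (C : ℝ)
    (hc : ∀ n, Continuous (f n)) (hb : ∀ n x, |f n x| ≤ C)
    (hlim : ∀ x, Tendsto (fun n => f n x) atTop (𝓝 (g x))) :
    ∃ w : X, Tendsto (fun n => cfc (f n) T v) atTop (𝓝 w) := by
  have hg : Measurable g := measurable_of_tendsto_metrizable (fun n => (hc n).measurable)
    (tendsto_pi_nhds.2 hlim)
  have hgb : ∀ x, |g x| ≤ C := fun x => le_of_tendsto (hlim x).abs (Eventually.of_forall fun n => hb n x)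
  have h1 := integral_sq_tendsto T v f g C hc hb hlim g hg hgb
  simp only [sub_self] at h1
  have h1' : Tendsto (fun n => ∫ x, (f n x - g x) ^ 2 ∂(mu T v)) atTop (𝓝 0) := by
    simpa using h1
  apply cauchySeq_tendsto_of_complete
  rw [Metric.cauchySeq_iff']
  intro ε hε
  have hε2 : 0 < ε ^ 2 / 8 := by positivity
  obtain ⟨N, hN⟩ := (Metric.tendsto_atTop.1 h1') _ hε2
  refine ⟨N, fun n hn => ?_⟩
  have key : ‖cfc (f n) T v - cfc (f N) T v‖ ^ 2 ≤ ε ^ 2 / 2 := by
    rw [← cfc_sub_apply T v _ _ (hc n) (hc N),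
      norm_sq T v (fun x => f n x - f N x) ((hc n).sub (hc N))]
    have hI : ∀ k, Integrable (fun x => (f k x - g x) ^ 2) (mu T v) := by
      intro k
      refine Integrable.of_bound (((hc k).measurable.sub hg).pow_const 2).aestronglyMeasurable
        ((2 * C) ^ 2) (Eventually.of_forall fun x => ?_)
      rw [Real.norm_eq_abs, abs_pow]
      have h1 : |f k x - g x| ≤ 2 * C := by
        calc |f k x - g x| ≤ |f k x| + |g x| := abs_sub _ _
          _ ≤ 2 * C := by linarith [hb k x, hgb x]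
      gcongr
    have h2 : ∫ x, (f n x - f N x) ^ 2 ∂(mu T v) ≤
        ∫ x, (2 * (f n x - g x) ^ 2 + 2 * (f N x - g x) ^ 2) ∂(mu T v) := by
      apply integral_mono (integrable_cont T v _ (((hc n).sub (hc N)).pow 2))
        (((hI n).const_mul 2).add ((hI N).const_mul 2))
      intro x
      show (f n x - f N x) ^ 2 ≤ 2 * (f n x - g x) ^ 2 + 2 * (f N x - g x) ^ 2
      nlinarith [sq_nonneg ((f n x - g x) + (f N x - g x))]
    rw [integral_add ((hI n).const_mul 2) ((hI N).const_mul 2), integral_const_mul,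
      integral_const_mul] at h2
    have h3 := hN n hn
    have h4 := hN N le_rfl
    rw [Real.dist_eq, sub_zero] at h3 h4
    have h5 := (abs_lt.1 h3).2
    have h6 := (abs_lt.1 h4).2
    linarith
  rw [dist_eq_norm]
  have h7 : ‖cfc (f n) T v - cfc (f N) T v‖ ^ 2 < ε ^ 2 := by
    have : 0 < ε ^ 2 := by positivity
    linarith
  exact lt_of_pow_lt_pow_left₀ 2 hε.le h7

/-- tent -/
noncomputable def tent (E : ℝ) (n : ℕ) (x : ℝ) : ℝ := max 0 (1 - (n + 1 : ℝ) * |x - E|)

lemma tent_cont (E : ℝ) (n : ℕ) : Continuous (tent E n) := by unfold tent; fun_prop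

lemma tent_nonneg (E : ℝ) (n : ℕ) (x : ℝ) : 0 ≤ tent E n x := le_max_left _ _

lemma tent_le (E : ℝ) (n : ℕ) (x : ℝ) : tent E n x ≤ 1 := by
  unfold tent
  refine max_le zero_le_one ?_
  have : 0 ≤ (n + 1 : ℝ) * |x - E| := by positivity
  linarith

lemma tent_mul_le (E : ℝ) (n : ℕ) (x : ℝ) : |(x - E) * tent E n x| ≤ 1 := by
  rw [abs_mul, abs_of_nonneg (tent_nonneg E n x)]
  by_cases h : 1 ≤ (n + 1 : ℝ) * |x - E|
  · unfold tent
    rw [max_eq_left (by linarith), mul_zero]
    exact zero_le_one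
  · push Not at h
    have h1 : |x - E| ≤ 1 := by
      have h0 : 0 ≤ (n : ℝ) * |x - E| := by positivity
      nlinarith [abs_nonneg (x - E)]
    calc |x - E| * tent E n x ≤ 1 * 1 :=
          mul_le_mul h1 (tent_le E n x) (tent_nonneg E n x) zero_le_one
      _ = 1 := one_mul 1

lemma tent_lim (E x : ℝ) : Tendsto (fun n => tent E n x) atTop (𝓝 (if x = E then 1 else 0)) := by
  by_cases h : x = E
  · rw [if_pos h]
    subst h
    have : (fun n => tent x n x) = fun _ => 1 := by
      funext n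
      unfold tent
      simp
    rw [this]
    exact tendsto_const_nhds
  · rw [if_neg h]
    have h1 : 0 < |x - E| := abs_pos.2 (sub_ne_zero.2 h)
    obtain ⟨N, hN⟩ := exists_nat_gt (1 / |x - E|)
    refine tendsto_const_nhds.congr' ?_
    filter_upwards [eventually_ge_atTop N] with n hn
    unfold tent
    rw [max_eq_left]
    have h2 : (N : ℝ) ≤ n := by exact_mod_cast hn
    have h3 : 1 / |x - E| < (n + 1 : ℝ) := by linarith
    rw [div_lt_iff₀ h1] at h3
    linarith

lemma mul_cfc (T : X →L[ℂ] X) (hT : IsSelfAdjoint T) (f : ℝ → ℝ) (hf : Continuous f) (E : ℝ)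
    (v : X) : cfc (fun x => (x - E) * f x) T v = T (cfc f T v) - (E : ℂ) • cfc f T v := by
  have h1 : cfc (fun x => (x - E) * f x) T = (T - E • 1) * cfc f T := by
    rw [cfc_mul (fun x => x - E) f T (by fun_prop) hf.continuousOn]
    congr 1
    rw [cfc_sub (fun x => x) (fun _ => E) T (by fun_prop) (by fun_prop), cfc_id' ℝ T,
      cfc_const E T]
    rw [Algebra.algebraMap_eq_smul_one]
  rw [h1]
  simp [sub_mul]

/-- the projection of `v` to the eigenspace -/
lemma exists_atom (T : X →L[ℂ] X) (hT : IsSelfAdjoint T) (v : X) (E : ℝ) :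
    ∃ w : X, Tendsto (fun n => cfc (tent E n) T v) atTop (𝓝 w) ∧ T w = (E : ℂ) • w := by
  obtain ⟨w, hw⟩ := exists_limit T v (tent E) _ 1 (tent_cont E)
    (fun n x => by rw [abs_of_nonneg (tent_nonneg E n x)]; exact tent_le E n x) (tent_lim E)
  refine ⟨w, hw, ?_⟩
  have h1 := norm_limit T v (fun n x => (x - E) * tent E n x) (fun _ => 0) 1
    (fun n => by have := tent_cont E n; fun_prop) (fun n x => tent_mul_le E n x)
    (fun x => by
      have := (tent_lim E x).const_mul (x - E)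
      by_cases h : x = E
      · simp [h]
      · simpa [h] using this)
  have h2 : Tendsto (fun n => T (cfc (tent E n) T v) - (E : ℂ) • cfc (tent E n) T v) atTop
      (𝓝 (T w - (E : ℂ) • w)) :=
    ((T.continuous.tendsto w).comp hw).sub (hw.const_smul (E : ℂ))
  have h3 : Tendsto (fun n => ‖T (cfc (tent E n) T v) - (E : ℂ) • cfc (tent E n) T v‖ ^ 2) atTop
      (𝓝 0) := by
    have : (∫ x, ((0 : ℝ)) ^ 2 ∂(mu T v)) = 0 := by simp
    rw [this] at h1
    refine h1.congr fun n => ?_
    rw [mul_cfc T hT _ (tent_cont E n)]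
  have h4 := tendsto_nhds_unique (h2.norm.pow 2) h3
  have h5 : ‖T w - (E : ℂ) • w‖ = 0 := by
    exact pow_eq_zero_iff (two_ne_zero) |>.1 h4
  exact sub_eq_zero.1 (norm_eq_zero.1 h5)

lemma one_sub_sum (T : X →L[ℂ] X) (hT : IsSelfAdjoint T) (v : X) (F : Finset ℝ) (n : ℕ) :
    cfc (fun x => 1 - ∑ E ∈ F, tent E n x) T v = v - ∑ E ∈ F, cfc (tent E n) T v := by
  have hc : Continuous fun x => ∑ E ∈ F, tent E n x :=
    continuous_finsetSum _ fun E _ => tent_cont E n
  rw [cfc_sub_apply T v (fun _ => 1) _ continuous_const hc]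
  congr 1
  · rw [cfc_const_one ℝ T]
    rfl
  · have : cfc (fun x => ∑ E ∈ F, tent E n x) T = ∑ E ∈ F, cfc (tent E n) T := by
      have := cfc_sum (a := T) (fun E => tent E n) F (fun E _ => (tent_cont E n).continuousOn)
      rw [← this]
      congr 1
      funext x
      simp
    rw [this]
    simp

theorem total (T : X →L[ℂ] X) (hT : IsSelfAdjoint T) (v φ : X) (N : Set ℝ) (hN : N.Countable)
    (h0 : mu T v Nᶜ = 0) (hφ : ∀ (E : ℝ) (w : X), T w = (E : ℂ) • w → ⟪φ, w⟫_ℂ = 0) :
    ⟪φ, v⟫_ℂ = 0 := by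
  have step : ∀ F : Finset ℝ, ‖⟪φ, v⟫_ℂ‖ ^ 2 ≤ ‖φ‖ ^ 2 * (mu T v).real ((F : Set ℝ)ᶜ) := by
    intro F
    choose w hw1 hw2 using fun E => exists_atom T hT v E
    -- the limit of the inner products
    have h1 : Tendsto (fun n => ⟪φ, cfc (fun x => 1 - ∑ E ∈ F, tent E n x) T v⟫_ℂ) atTop
        (𝓝 ⟪φ, v⟫_ℂ) := by
      have h2 : Tendsto (fun n => ⟪φ, v - ∑ E ∈ F, cfc (tent E n) T v⟫_ℂ) atTop
          (𝓝 ⟪φ, v - ∑ E ∈ F, w E⟫_ℂ) := by
        apply Tendsto.inner tendsto_const_nhds
        apply Tendsto.sub tendsto_const_nhds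
        exact tendsto_finsetSum _ fun E _ => hw1 E
      have h3 : ⟪φ, v - ∑ E ∈ F, w E⟫_ℂ = ⟪φ, v⟫_ℂ := by
        rw [inner_sub_right, inner_sum, Finset.sum_eq_zero fun E _ => hφ E _ (hw2 E), sub_zero]
      rw [h3] at h2
      refine h2.congr fun n => ?_
      rw [one_sub_sum T hT v F n]
    have hlim : ∀ x, Tendsto (fun n => 1 - ∑ E ∈ F, tent E n x) atTop
        (𝓝 (indicator ((F : Set ℝ)ᶜ) (fun _ => (1 : ℝ)) x)) := by
      intro x
      have h4 : indicator ((F : Set ℝ)ᶜ) (fun _ => (1 : ℝ)) x =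
          1 - ∑ E ∈ F, (if x = E then (1 : ℝ) else 0) := by
        rw [Finset.sum_ite_eq F x (fun _ => (1 : ℝ))]
        by_cases hx : x ∈ F
        · rw [if_pos hx, indicator_of_notMem (by simpa using hx), sub_self]
        · rw [if_neg hx, indicator_of_mem (by simpa using hx), sub_zero]
      rw [h4]
      exact tendsto_const_nhds.sub (tendsto_finsetSum _ fun E _ => tent_lim E x)
    have hb : ∀ (n : ℕ) (x : ℝ), |1 - ∑ E ∈ F, tent E n x| ≤ 1 + F.card := by
      intro n x
      have h5 : 0 ≤ ∑ E ∈ F, tent E n x := Finset.sum_nonneg fun E _ => tent_nonneg E n x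
      have h6 : ∑ E ∈ F, tent E n x ≤ F.card := by
        calc ∑ E ∈ F, tent E n x ≤ ∑ E ∈ F, (1 : ℝ) := Finset.sum_le_sum fun E _ => tent_le E n x
          _ = F.card := by simp
      rw [abs_le]
      constructor <;> linarith
    have hc : ∀ n : ℕ, Continuous fun x => 1 - ∑ E ∈ F, tent E n x := fun n =>
      continuous_const.sub (continuous_finsetSum _ fun E _ => tent_cont E n)
    have h7 := norm_limit T v (fun n x => 1 - ∑ E ∈ F, tent E n x) _ _ hc hb hlim
    have h8 : ∫ x, (indicator ((F : Set ℝ)ᶜ) (fun _ => (1 : ℝ)) x) ^ 2 ∂(mu T v) =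
        (mu T v).real ((F : Set ℝ)ᶜ) := by
      have h9 : (fun x => (indicator ((F : Set ℝ)ᶜ) (fun _ => (1 : ℝ)) x) ^ 2) =
          indicator ((F : Set ℝ)ᶜ) (fun _ => (1 : ℝ)) := by
        funext x
        by_cases hx : x ∈ ((F : Set ℝ)ᶜ)
        · rw [indicator_of_mem hx]; norm_num
        · rw [indicator_of_notMem hx]; norm_num
      rw [h9, integral_indicator_const _ (F.measurableSet.compl)]
      simp
    rw [h8] at h7
    have h10 : Tendsto (fun n => ‖⟪φ, cfc (fun x => 1 - ∑ E ∈ F, tent E n x) T v⟫_ℂ‖ ^ 2) atTop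
        (𝓝 (‖⟪φ, v⟫_ℂ‖ ^ 2)) := h1.norm.pow 2
    refine le_of_tendsto_of_tendsto' h10 (h7.const_mul (‖φ‖ ^ 2)) fun n => ?_
    rw [← mul_pow]
    gcongr
    exact norm_inner_le_norm _ _
  obtain ⟨e, he⟩ := (hN.insert 0).exists_eq_range (insert_nonempty _ _)
  have h11 : Tendsto (fun k : ℕ => mu T v (((Finset.range k).image e : Finset ℝ) : Set ℝ)ᶜ) atTop
      (𝓝 (mu T v (⋂ k : ℕ, (((Finset.range k).image e : Finset ℝ) : Set ℝ)ᶜ))) := by
    apply tendsto_measure_iInter_atTop
    · intro k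
      exact (Finset.measurableSet _).compl.nullMeasurableSet
    · intro a b hab
      apply compl_subset_compl.2
      exact_mod_cast Finset.image_subset_image (Finset.range_mono hab)
    · exact ⟨0, measure_ne_top _ _⟩
  have h12 : mu T v (⋂ k : ℕ, (((Finset.range k).image e : Finset ℝ) : Set ℝ)ᶜ) = 0 := by
    refine measure_mono_null ?_ h0
    intro x hx hxN
    have : x ∈ range e := he ▸ mem_insert_of_mem _ hxN
    obtain ⟨j, rfl⟩ := this
    have h13 := mem_iInter.1 hx (j + 1)
    apply h13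
    simp only [Finset.coe_image, mem_image, Finset.coe_range, mem_Iio]
    exact ⟨j, Nat.lt_succ_self j, rfl⟩
  rw [h12] at h11
  have h14 : Tendsto (fun k : ℕ => ‖φ‖ ^ 2 *
      (mu T v).real (((Finset.range k).image e : Finset ℝ) : Set ℝ)ᶜ) atTop (𝓝 (‖φ‖ ^ 2 * 0)) := by
    apply Tendsto.const_mul
    have := (ENNReal.tendsto_toReal ENNReal.zero_ne_top).comp h11
    simpa [Measure.real, Function.comp_def] using this
  rw [mul_zero] at h14
  have h15 : ‖⟪φ, v⟫_ℂ‖ ^ 2 ≤ 0 := ge_of_tendsto' h14 fun k => step _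
  have h16 : ‖⟪φ, v⟫_ℂ‖ = 0 := by
    have : ‖⟪φ, v⟫_ℂ‖ ^ 2 = 0 := le_antisymm h15 (by positivity)
    exact pow_eq_zero_iff (two_ne_zero) |>.1 this
  exact norm_eq_zero.1 h16


/-- real part of `1 / (t - z)` -/
noncomputable def rr (z : ℂ) (t : ℝ) : ℝ := (t - z.re) / ((t - z.re) ^ 2 + z.im ^ 2)

/-- imaginary part of `1 / (t - z)` -/
noncomputable def ss (z : ℂ) (t : ℝ) : ℝ := z.im / ((t - z.re) ^ 2 + z.im ^ 2)

lemma den_pos {z : ℂ} (hz : z.im ≠ 0) (t : ℝ) : 0 < (t - z.re) ^ 2 + z.im ^ 2 := by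
  positivity

lemma rr_cont {z : ℂ} (hz : z.im ≠ 0) : Continuous (rr z) := by
  unfold rr
  exact Continuous.div (by fun_prop) (by fun_prop) fun t => (den_pos hz t).ne'

lemma ss_cont {z : ℂ} (hz : z.im ≠ 0) : Continuous (ss z) := by
  unfold ss
  exact Continuous.div (by fun_prop) (by fun_prop) fun t => (den_pos hz t).ne'

lemma inv_eq {z : ℂ} (hz : z.im ≠ 0) (t : ℝ) :
    ((t : ℂ) - z)⁻¹ = (rr z t : ℂ) + Complex.I * (ss z t : ℂ) := by
  have h : (t : ℂ) - z ≠ 0 := by
    intro h0
    apply hz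
    have := congrArg Complex.im h0
    simpa using this
  have hd := (den_pos hz t).ne'
  have hd' : ((t - z.re : ℝ) : ℂ) ^ 2 + ((z.im : ℝ) : ℂ) ^ 2 ≠ 0 := by exact_mod_cast hd
  symm
  apply eq_inv_of_mul_eq_one_left
  have hzz : (t : ℂ) - z = ((t - z.re : ℝ) : ℂ) - Complex.I * ((z.im : ℝ) : ℂ) := by
    apply Complex.ext <;> simp
  rw [hzz]
  unfold rr ss
  push_cast
  push_cast at hd'
  field_simp
  ring_nf
  rw [Complex.I_sq]
  ring

omit [Nontrivial X] in
lemma inner_real (T : X →L[ℂ] X) (v : X) (f : ℝ → ℝ) : ⟪v, cfc f T v⟫_ℂ = (Q T v f : ℂ) := by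
  have hs : IsSelfAdjoint (cfc f T) := cfc_predicate f T
  have h2 := (ContinuousLinearMap.isSelfAdjoint_iff_isSymmetric.1 hs) v v
  simp only [ContinuousLinearMap.coe_coe] at h2
  have h3 : (starRingEnd ℂ) ⟪v, cfc f T v⟫_ℂ = ⟪v, cfc f T v⟫_ℂ := by
    rw [inner_conj_symm, h2]
  unfold Q
  exact (Complex.conj_eq_iff_re.1 h3).symm

theorem resolvent (T : X →L[ℂ] X) (hT : IsSelfAdjoint T) (v : X) {z : ℂ} (hz : z.im ≠ 0) :
    ∃ u : X, T u - z • u = v ∧ ∫ E : ℝ, ((E : ℂ) - z)⁻¹ ∂(mu T v) = ⟪v, u⟫_ℂ := by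
  refine ⟨cfc (rr z) T v + Complex.I • cfc (ss z) T v, ?_, ?_⟩
  · have h1 := mul_cfc T hT (rr z) (rr_cont hz) z.re v
    have h2 := mul_cfc T hT (ss z) (ss_cont hz) z.re v
    have h3 : cfc (fun x => (x - z.re) * rr z x) T v + (z.im : ℂ) • cfc (ss z) T v = v := by
      have e : cfc (fun x => (x - z.re) * rr z x + z.im * ss z x) T = 1 := by
        rw [← cfc_const_one ℝ T]
        congr 1
        funext x
        unfold rr ss
        have := (den_pos hz x).ne'
        field_simp
      have e2 : cfc (fun x => (x - z.re) * rr z x + z.im * ss z x) T =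
          cfc (fun x => (x - z.re) * rr z x) T + cfc (fun x => z.im * ss z x) T :=
        cfc_add (a := T) _ _ (by have := rr_cont hz; fun_prop) (by have := ss_cont hz; fun_prop)
      have e3 : cfc (fun x => z.im * ss z x) T = z.im • cfc (ss z) T :=
        cfc_const_mul _ _ T (ss_cont hz).continuousOn
      rw [e, e3] at e2
      have e4 := congrArg (fun A : X →L[ℂ] X => A v) e2
      simp only [add_apply, smul_apply] at e4
      rw [show (z.im : ℂ) • cfc (ss z) T v = z.im • cfc (ss z) T v by simp]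
      exact e4.symm
    have h4 : cfc (fun x => (x - z.re) * ss z x) T v - (z.im : ℂ) • cfc (rr z) T v = 0 := by
      have e : cfc (fun x => (x - z.re) * ss z x) T = cfc (fun x => z.im * rr z x) T := by
        congr 1
        funext x
        unfold rr ss
        ring
      have e3 : cfc (fun x => z.im * rr z x) T = z.im • cfc (rr z) T :=
        cfc_const_mul _ _ T (rr_cont hz).continuousOn
      rw [e, e3]
      simp
    rw [h1] at h3
    rw [h2] at h4
    have hz2 : z = (z.re : ℂ) + Complex.I * (z.im : ℂ) := by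
      rw [mul_comm]
      exact (Complex.re_add_im z).symm
    have : T (cfc (rr z) T v + Complex.I • cfc (ss z) T v) -
        z • (cfc (rr z) T v + Complex.I • cfc (ss z) T v) =
        (T (cfc (rr z) T v) - (z.re : ℂ) • cfc (rr z) T v + (z.im : ℂ) • cfc (ss z) T v) +
          Complex.I • (T (cfc (ss z) T v) - (z.re : ℂ) • cfc (ss z) T v -
            (z.im : ℂ) • cfc (rr z) T v) := by
      generalize cfc (rr z) T v = p
      generalize cfc (ss z) T v = q
      rw [map_add, map_smul]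
      have hzp : z • (p + Complex.I • q) = (z.re : ℂ) • p + Complex.I • (z.im : ℂ) • p +
          (Complex.I • (z.re : ℂ) • q - (z.im : ℂ) • q) := by
        conv_lhs => rw [hz2]
        simp only [smul_add, add_smul, smul_smul]
        have e1 : ((z.re : ℂ) * Complex.I) • q = (Complex.I * (z.re : ℂ)) • q := by
          rw [mul_comm]
        have e2 : (Complex.I * (z.im : ℂ) * Complex.I) • q = -((z.im : ℂ) • q) := by
          rw [show Complex.I * (z.im : ℂ) * Complex.I = (Complex.I * Complex.I) * (z.im : ℂ) by ring,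
            Complex.I_mul_I, neg_one_mul, neg_smul]
        rw [add_mul, add_smul, e1, e2]
        abel
      rw [hzp]
      simp only [smul_sub]
      abel
    rw [this, h3, h4, smul_zero, add_zero]
  · have h1 : ∀ E : ℝ, ((E : ℂ) - z)⁻¹ = (rr z E : ℂ) + Complex.I * (ss z E : ℂ) := inv_eq hz
    simp only [h1]
    have i1 := integrable_cont T v _ (rr_cont hz)
    have i2 := integrable_cont T v _ (ss_cont hz)
    rw [integral_add i1.ofReal (i2.ofReal.const_mul _), integral_const_mul, integral_complex_ofReal,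
      integral_complex_ofReal, integral_mu T v _ (rr_cont hz), integral_mu T v _ (ss_cont hz),
      inner_add_right, inner_smul_right, inner_real, inner_real]

end Pool.Agent.LeadW.PPS
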