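import Pool.Graph.R_seed8.H4R2.LO.Defs
import Pool.Graph.R_seed8.H5R2.NB.EX
import Pool.Graph.R_seed8.H5R2.NB.OPS
import Pool.Agent.LeadW.PPS.A

set_option autoImplicit false

open MeasureTheory Filter Topology
open scoped BigOperators ENNReal NNReal InnerProductSpace ComplexConjugate

namespace Pool.Agent.LeadW.PPS

open Pool.Agent.H4R2.LO (Zd dd bx Hg L2f IsSpec PolyB IsGen)
open Pool.Agent.H5R2.NB (UG L2 dl IsGrp PP IsHop hopf)

/-- the operator of a bounded potential -/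
lemma exists_H {d : ℕ} (V : Zd d → ℝ) (K : ℝ) (hV : ∀ x, |V x| ≤ K) :
    ∃ T : L2 (Zd d) →L[ℂ] L2 (Zd d), IsSelfAdjoint T ∧
      ∀ ψ x, (T ψ) x = Hg (-1) V (fun y => ψ y) x := by
  obtain ⟨A, hA⟩ := (Pool.Agent.H5R2.NB.t_OPS d).2.1 (-1)
  have hK : 0 ≤ K := (abs_nonneg _).trans (hV 0)
  obtain ⟨M, hM⟩ := Pool.Agent.H4R2.AE.Exist.exists_op (ι := Zd d) id Function.injective_id
    (fun x => (V x : ℂ)) K hK (fun x => by simpa using hV x)
  refine ⟨A + M, ?_, ?_⟩
  · rw [ContinuousLinearMap.isSelfAdjoint_iff_isSymmetric]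
    intro f g
    simp only [ContinuousLinearMap.coe_coe, add_apply, inner_add_left, inner_add_right]
    rw [Pool.Agent.H5R2.NB.EX.hop_symm Pool.Agent.H5R2.NB.t_OPS hA]
    congr 1
    rw [lp.inner_eq_tsum, lp.inner_eq_tsum]
    refine tsum_congr fun x => ?_
    rw [hM, hM]
    simp only [id, RCLike.inner_apply, map_mul, Complex.conj_ofReal]
    ring
  · intro ψ x
    rw [add_apply, lp.coeFn_add, Pi.add_apply, hA, hM]
    rfl

lemma l2f_coe {d : ℕ} (ψ : L2 (Zd d)) : L2f fun x => ψ x := by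
  have := (lp.memℓp ψ).summable (by norm_num : 0 < (2 : ℝ≥0∞).toReal)
  unfold L2f
  simpa using this

theorem t_PPS (d : ℕ) (V : Zd d → ℝ) (K : ℝ) (hV : ∀ x, |V x| ≤ K)
    (h : ∀ (x : Zd d) (m : Measure ℝ), IsSpec (-1) V (Pi.single x 1) m →
      ∃ N : Set ℝ, N.Countable ∧ m Nᶜ = 0)
    (φ : L2 (Zd d)) (hφ : ∀ (E : ℝ) (ψ : L2 (Zd d)),
      (∀ x, Hg (-1) V (fun y => ψ y) x = (E : ℂ) * ψ x) → ⟪ψ, φ⟫_ℂ = 0) : φ = 0 := by
  obtain ⟨T, hT, hTV⟩ := exists_H V K hV
  have : Nontrivial (L2 (Zd d)) := by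
    refine ⟨dl 0, 0, fun h0 => ?_⟩
    have := congrArg (fun f : L2 (Zd d) => f 0) h0
    simp [dl] at this
  have key : ∀ x : Zd d, φ x = 0 := by
    intro x
    have hdl : (fun y => (dl x : L2 (Zd d)) y) = Pi.single x 1 := by
      funext y
      simp [dl, lp.single_apply]
    have hs : IsSpec (-1) V (Pi.single x 1) (mu T (dl x)) := by
      refine ⟨mu_finite T (dl x), fun z hz => ?_⟩
      obtain ⟨u, hu1, hu2⟩ := resolvent T hT (dl x) hz
      refine ⟨fun y => u y, l2f_coe u, fun y => ?_, ?_⟩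
      · rw [← hTV u y, ← hdl]
        have := congrArg (fun f : L2 (Zd d) => f y) hu1
        simpa using this
      · rw [hu2, lp.inner_eq_tsum]
        refine tsum_congr fun y => ?_
        rw [← hdl]
        simp [mul_comm]
    obtain ⟨N, hN, hN0⟩ := h x _ hs
    have h1 : ⟪φ, dl x⟫_ℂ = 0 := by
      apply total T hT (dl x) φ N hN hN0
      intro E w hw
      have h2 := hφ E w (fun y => by
        rw [← hTV w y, hw, lp.coeFn_smul, Pi.smul_apply, smul_eq_mul])
      rw [← inner_conj_symm, h2, map_zero]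
    have h3 : ⟪φ, dl x⟫_ℂ = conj (φ x) := by
      rw [lp.inner_eq_tsum, tsum_eq_single x]
      · simp [dl]
      · intro y hy
        simp [dl, lp.single_apply, hy]
    rw [h3] at h1
    simpa using h1
  ext x
  simpa using key x

end Pool.Agent.LeadW.PPS
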